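import Pool.Agent.Y204.NM.Gor

/-!
Vasconcelos' conjecture on the normal module for quasi-homogeneous ideals.

`I` is an ideal of a Noetherian local ring `S`, `R = S/I`, `N = Hom_R(I/I², R)`.
-/

set_option autoImplicit false

open CategoryTheory IsLocalRing MvPolynomial

namespace Pool.Agent.Results.MP_fa772a_ag.ContractedIdeals

/-- The normal module `Hom_R(I/I², R)`, `R = S/I`. -/
abbrev Normal {S : Type} [CommRing S] (I : Ideal S) : Type := I.Cotangent →ₗ[S ⧸ I] (S ⧸ I)

/-- `M` has finite projective dimension over `R`. -/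
def FinitePd (R M : Type) [CommRing R] [AddCommGroup M] [Module R M] : Prop :=
  ∃ n : ℕ, HasProjectiveDimensionLT (ModuleCat.of R M) n

/-- Every `R`-regular sequence has length at most `t` (for a Noetherian local ring this says
`depth R ≤ t`). -/
def DepthLE (R : Type) [CommRing R] (t : ℕ) : Prop :=
  ∀ rs : List R, RingTheory.Sequence.IsRegular R rs → rs.length ≤ t

/-- `Ext^i_R(I/I², R) = 0`. -/
def ExtVanishes {S : Type} [CommRing S] (I : Ideal S) (i : ℕ) : Prop :=
  Subsingleton (Abelian.Ext (ModuleCat.of (S ⧸ I) I.Cotangent) (ModuleCat.of (S ⧸ I) (S ⧸ I)) i)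

/-- `I` is generated by an `S`-regular sequence. -/
def RegularlyGenerated {S : Type} [CommRing S] (I : Ideal S) : Prop :=
  ∃ rs : List S, Ideal.span {r : S | r ∈ rs} = I ∧ RingTheory.Sequence.IsRegular S rs

/-- The derivation `E = ∑ a i * D i`, with all `a i` in the maximal ideal, maps `I` into itself
and induces an injective map of `I/𝔪I`. -/
structure Contracting {S : Type} [CommRing S] [IsLocalRing S] (I : Ideal S) {n : ℕ}
    (D : Fin n → Derivation ℤ S S) (a : Fin n → S) : Prop where
  mem : ∀ i, a i ∈ maximalIdeal S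
  stable : ∀ f ∈ I, ∑ i, a i * D i f ∈ I
  inj : ∀ f ∈ I, ∑ i, a i * D i f ∈ maximalIdeal S * I → f ∈ maximalIdeal S * I

/-- **Part 1.** Let `S` be a Noetherian local ring and `I ≠ S` an ideal of finite projective
dimension which is contracted by a derivation `∑ a i * D i`. If the normal module has finite
projective dimension over `R = S/I` and `Ext^i_R(I/I², R) = 0` for `1 ≤ i ≤ depth R - 2` (no
condition if `depth R ≤ 2`), then `I` is generated by a regular sequence.

**Part 2.** If `S` is the localization of `k[x_1,…,x_n]` at a prime containing the variables of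
nonzero weight (for instance at the origin) and `I` is generated by weighted homogeneous polynomials
whose degrees are nonzero in the field `k` (positive degrees if `char k = 0`), then `I` has finite
projective dimension and is contracted, so that Part 1 applies. -/
theorem result :
    (∀ (S : Type) [CommRing S] [IsNoetherianRing S] [IsLocalRing S] (I : Ideal S), I ≠ ⊤ →
      FinitePd S I → ∀ (n : ℕ) (D : Fin n → Derivation ℤ S S) (a : Fin n → S),
      Contracting I D a → FinitePd (S ⧸ I) (Normal I) → ∀ t : ℕ, DepthLE (S ⧸ I) t →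
        (∀ i, 1 ≤ i → i + 2 ≤ t → ExtVanishes I i) → RegularlyGenerated I) ∧
    (∀ (k : Type) [Field k] (n : ℕ) (w : Fin n → ℕ) (Q : Ideal (MvPolynomial (Fin n) k))
      [Q.IsPrime], (∀ i, w i ≠ 0 → (X i : MvPolynomial (Fin n) k) ∈ Q) →
      ∀ (m : ℕ) (f : Fin m → MvPolynomial (Fin n) k) (d : Fin m → ℕ),
      (∀ l, (f l).IsWeightedHomogeneous w (d l)) → (∀ l, (d l : k) ≠ 0) →
      ∀ (S : Type) [CommRing S] [Algebra (MvPolynomial (Fin n) k) S] [IsLocalization.AtPrime S Q]
        [IsLocalRing S] (I : Ideal S), I = Ideal.span (Set.range fun l => algebraMap _ S (f l)) →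
        FinitePd S I ∧ ∃ (D : Fin n → Derivation ℤ S S) (a : Fin n → S), Contracting I D a) := by
  refine ⟨?_, ?_⟩
  · intro S _ _ _ I hI hpd n D a hE hN t ht hext
    obtain ⟨p, hp⟩ := hpd
    obtain ⟨q, hq⟩ := hN
    have hE' : Pool.Agent.Y204.NM.Contracting I D a := ⟨hE.mem, hE.stable, hE.inj⟩
    have hnt : Nontrivial (S ⧸ I) := Ideal.Quotient.nontrivial_iff.2 hI
    have hloc : IsLocalRing (S ⧸ I) :=
      IsLocalRing.of_surjective' (Ideal.Quotient.mk I) Ideal.Quotient.mk_surjective
    have hfin : Module.Finite (S ⧸ I) I.Cotangent := by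
      have h1 : Module.Finite S I.Cotangent :=
        Module.Finite.of_surjective I.toCotangent I.toCotangent_surjective
      exact Module.Finite.of_restrictScalars_finite S (S ⧸ I) I.Cotangent
    have hfin2 : Module.Finite (S ⧸ I) (Normal I) := inferInstance
    have hfree := Pool.Agent.Y204.NM.dual_free_of_ext (S ⧸ I) t ht I.Cotangent hext hq
    exact Pool.Agent.Y204.NM.regular_of_free I hI hp D a hE'
  · intro k _ n w Q _ hQ m f d hf hd S _ _ _ _ I hIf
    subst hIf
    refine ⟨⟨n + 1, Pool.Agent.Y204.NM.pdLT_localization k Q S f⟩, ?_⟩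
    obtain ⟨D, a, -, -, hE⟩ := Pool.Agent.Y204.NM.contracting_weighted k Q S w hQ f d hf hd
    exact ⟨D, a, hE.mem, hE.stable, hE.inj⟩

end Pool.Agent.Results.MP_fa772a_ag.ContractedIdeals
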