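import Pool.Agent.Y204.NM.Local

/-!
Vasconcelos' conjecture on the normal module: arbitrary local rings, few `Ext` modules.

`I` is an ideal of a Noetherian local ring `S`, `R = S/I`, `N = Hom_R(I/I², R)`.
-/

set_option autoImplicit false

open CategoryTheory IsLocalRing MvPolynomial

namespace Pool.Agent.Results.MP_fa772a_ag.DepthOne

/-- The normal module `Hom_R(I/I², R)`, `R = S/I`. -/
abbrev Normal {S : Type} [CommRing S] (I : Ideal S) : Type := I.Cotangent →ₗ[S ⧸ I] (S ⧸ I)

/-- `M` has finite projective dimension over `R`. -/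
def FinitePd (R M : Type) [CommRing R] [AddCommGroup M] [Module R M] : Prop :=
  ∃ n : ℕ, HasProjectiveDimensionLT (ModuleCat.of R M) n

/-- Every `R`-regular sequence has length at most `t` (for a Noetherian local ring this says
`depth R ≤ t`). -/
def DepthLE (R : Type) [CommRing R] (t : ℕ) : Prop :=
  ∀ rs : List R, RingTheory.Sequence.IsRegular R rs → rs.length ≤ t

/-- `Ext^i_R(I/I², R) = 0`. -/
def ExtVanishes {S : Type} [CommRing S] (I : Ideal S) (i : ℕ) : Prop :=
  Subsingleton (Abelian.Ext (ModuleCat.of (S ⧸ I) I.Cotangent) (ModuleCat.of (S ⧸ I) (S ⧸ I)) i)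

/-- `I` is generated by an `S`-regular sequence. -/
def RegularlyGenerated {S : Type} [CommRing S] (I : Ideal S) : Prop :=
  ∃ rs : List S, Ideal.span {r : S | r ∈ rs} = I ∧ RingTheory.Sequence.IsRegular S rs

/-- Let `S` be a Noetherian local ring, `I ≠ S` an ideal of finite projective dimension, `R = S/I`,
and suppose that the normal module `Hom_R(I/I², R)` has finite projective dimension over `R`. If
`Ext^i_R(I/I², R) = 0` for `1 ≤ i ≤ depth R - 1`, then `I` is generated by a regular sequence. In
particular Vasconcelos' conjecture holds when `depth R ≤ 1`. -/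
theorem result (S : Type) [CommRing S] [IsNoetherianRing S] [IsLocalRing S] (I : Ideal S)
    (hI : I ≠ ⊤) (hpd : FinitePd S I) (hN : FinitePd (S ⧸ I) (Normal I)) (t : ℕ)
    (ht : DepthLE (S ⧸ I) t) (hext : ∀ i, 1 ≤ i → i + 1 ≤ t → ExtVanishes I i) :
    RegularlyGenerated I := by
  obtain ⟨p, hp⟩ := hpd
  obtain ⟨q, hq⟩ := hN
  exact Pool.Agent.Y204.NM.regular_of_ext I hI hp hq t ht hext

end Pool.Agent.Results.MP_fa772a_ag.DepthOne
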