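import Pool.Agent.Y204.NM.Conv

/-!
A criterion for complete intersections by the Euler relation of the normal module.

`I` is an ideal of a Noetherian local ring `S`, `R = S/I`, `N = Hom_R(I/I², R)`.
-/

set_option autoImplicit false

open CategoryTheory IsLocalRing MvPolynomial

namespace Pool.Agent.Results.MP_fa772a_ag.EulerCriterion

/-- The normal module `Hom_R(I/I², R)`, `R = S/I`. -/
abbrev Normal {S : Type} [CommRing S] (I : Ideal S) : Type := I.Cotangent →ₗ[S ⧸ I] (S ⧸ I)

/-- `M` has finite projective dimension over `R`. -/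
def FinitePd (R M : Type) [CommRing R] [AddCommGroup M] [Module R M] : Prop :=
  ∃ n : ℕ, HasProjectiveDimensionLT (ModuleCat.of R M) n

/-- `I` is generated by an `S`-regular sequence. -/
def RegularlyGenerated {S : Type} [CommRing S] (I : Ideal S) : Prop :=
  ∃ rs : List S, Ideal.span {r : S | r ∈ rs} = I ∧ RingTheory.Sequence.IsRegular S rs

/-- The derivation `E = ∑ a i * D i`, with all `a i` in the maximal ideal, maps `I` into itself
and induces an injective map of `I/𝔪I`. -/
structure Contracting {S : Type} [CommRing S] [IsLocalRing S] (I : Ideal S) {n : ℕ}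
    (D : Fin n → Derivation ℤ S S) (a : Fin n → S) : Prop where
  mem : ∀ i, a i ∈ maximalIdeal S
  stable : ∀ f ∈ I, ∑ i, a i * D i f ∈ I
  inj : ∀ f ∈ I, ∑ i, a i * D i f ∈ maximalIdeal S * I → f ∈ maximalIdeal S * I

/-- The Euler relation is not a minimal relation of the normal module: the classes `[D i] ∈ N` of
the derivations are combinations `∑ j, c i j φ j` of some `φ j ∈ N`, and the vector
`(∑ i, a i c i j)_j` (a relation between the `φ j`) lies in `𝔪` times the module of all relations
`z ∈ R^r`, `∑ j, z j φ j = 0`. -/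
def EulerNotMinimal {S : Type} [CommRing S] [IsLocalRing S] (I : Ideal S) {n : ℕ}
    (D : Fin n → Derivation ℤ S S) (a : Fin n → S) : Prop :=
  ∃ (r : ℕ) (φ : Fin r → Normal I) (c : Fin n → Fin r → S),
    (∀ (i : Fin n) (x : I), Ideal.Quotient.mk I (D i x) =
      ∑ j, Ideal.Quotient.mk I (c i j) * φ j (I.toCotangent x)) ∧
    (fun j => Ideal.Quotient.mk I (∑ i, a i * c i j)) ∈ maximalIdeal S •
      (LinearMap.ker (Fintype.linearCombination (S ⧸ I) φ)).restrictScalars S

/-- Let `S` be a Noetherian local ring, `I ≠ S` an ideal of finite projective dimension, contracted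
by the derivation `E = ∑ a i * D i`. Then `I` is generated by a regular sequence if and only if
the Euler relation `∑ a i [D i] = 0` is not a minimal relation of the normal module. In
particular this holds when the normal module is free, without any condition on `depth S/I`. -/
theorem result (S : Type) [CommRing S] [IsNoetherianRing S] [IsLocalRing S] (I : Ideal S)
    (hI : I ≠ ⊤) (hpd : FinitePd S I) (n : ℕ) (D : Fin n → Derivation ℤ S S) (a : Fin n → S)
    (hE : Contracting I D a) :
    (RegularlyGenerated I ↔ EulerNotMinimal I D a) ∧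
      (Module.Free (S ⧸ I) (Normal I) → RegularlyGenerated I) := by
  obtain ⟨p, hp⟩ := hpd
  have hE' : Pool.Agent.Y204.NM.Contracting I D a := ⟨hE.mem, hE.stable, hE.inj⟩
  have hnt : Nontrivial (S ⧸ I) := Ideal.Quotient.nontrivial_iff.2 hI
  have hloc : IsLocalRing (S ⧸ I) :=
    IsLocalRing.of_surjective' (Ideal.Quotient.mk I) Ideal.Quotient.mk_surjective
  have hfin : Module.Finite (S ⧸ I) I.Cotangent := by
    have h1 : Module.Finite S I.Cotangent :=
      Module.Finite.of_surjective I.toCotangent I.toCotangent_surjective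
    exact Module.Finite.of_restrictScalars_finite S (S ⧸ I) I.Cotangent
  have hfin2 : Module.Finite (S ⧸ I) (Normal I) := inferInstance
  refine ⟨⟨?_, ?_⟩, fun h => Pool.Agent.Y204.NM.regular_of_free I hI hp D a hE'⟩
  · rintro ⟨rs, hrs, hreg⟩
    obtain ⟨h1, h2⟩ := Pool.Agent.Y204.NM.free_cotangent I rs hrs hreg.toIsWeaklyRegular
    have h3 : Module.Free (S ⧸ I) (Normal I) := inferInstance
    obtain ⟨r, φ, c, hc, hz⟩ := Pool.Agent.Y204.NM.euler_trivial I hI D a hE'
    refine ⟨r, φ, c, ?_, ?_⟩
    · intro i x
      have h4 := congrArg (fun l => l (I.toCotangent x)) (hc i)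
      simp only [Pool.Agent.Y204.NM.derNormal_apply, LinearMap.sum_apply, LinearMap.smul_apply,
        smul_eq_mul] at h4
      exact h4
    · rw [hz]
      exact zero_mem _
  · rintro ⟨r, φ, c, hc, hrel⟩
    refine Pool.Agent.Y204.NM.regular_of_euler I hI hp D a hE' φ c ?_ hrel
    intro i
    apply LinearMap.ext
    intro y
    obtain ⟨x, rfl⟩ := I.toCotangent_surjective y
    rw [Pool.Agent.Y204.NM.derNormal_apply, hc, LinearMap.sum_apply]
    exact Finset.sum_congr rfl fun j _ => rfl

end Pool.Agent.Results.MP_fa772a_ag.EulerCriterion
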