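import Pool.Agent.Y204.NM.Gor

/-!
Vasconcelos' conjecture on the normal module for quasi-homogeneous rings with reflexive canonical
module.

`I` is an ideal of a Noetherian local ring `S`, `R = S/I`, `N = Hom_R(I/I², R)`.
-/

set_option autoImplicit false

open CategoryTheory IsLocalRing MvPolynomial

namespace Pool.Agent.Results.MP_fa772a_ag.ReflexiveCanonical

/-- The normal module `Hom_R(I/I², R)`, `R = S/I`. -/
abbrev Normal {S : Type} [CommRing S] (I : Ideal S) : Type := I.Cotangent →ₗ[S ⧸ I] (S ⧸ I)

/-- `M` has finite projective dimension over `R`. -/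
def FinitePd (R M : Type) [CommRing R] [AddCommGroup M] [Module R M] : Prop :=
  ∃ n : ℕ, HasProjectiveDimensionLT (ModuleCat.of R M) n

/-- Every `R`-regular sequence has length at most `t` (for a Noetherian local ring this says
`depth R ≤ t`). -/
def DepthLE (R : Type) [CommRing R] (t : ℕ) : Prop :=
  ∀ rs : List R, RingTheory.Sequence.IsRegular R rs → rs.length ≤ t

/-- `Ext^i_R(I/I², R) = 0`. -/
def ExtVanishes {S : Type} [CommRing S] (I : Ideal S) (i : ℕ) : Prop :=
  Subsingleton (Abelian.Ext (ModuleCat.of (S ⧸ I) I.Cotangent) (ModuleCat.of (S ⧸ I) (S ⧸ I)) i)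

/-- `I` is generated by an `S`-regular sequence. -/
def RegularlyGenerated {S : Type} [CommRing S] (I : Ideal S) : Prop :=
  ∃ rs : List S, Ideal.span {r : S | r ∈ rs} = I ∧ RingTheory.Sequence.IsRegular S rs

/-- The `k`-algebra `R` is finite free over a local `k`-algebra `A`, the rank is a unit of `A`;
`W` is the canonical module `Hom_A(R, A)` (the map `W → Hom_A(R, A)`, `φ ↦ (r ↦ ev (r • φ))`, is
bijective) and it is a reflexive `R`-module; and the derivation `E` of `R` maps `A` to itself,
acting there as `∑ α j * v j` with `v j` derivations of `A` and `α j` in its maximal ideal. -/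
structure HasReflexiveCanonical (k A R W : Type) [CommRing k] [CommRing A] [IsLocalRing A]
    [Algebra k A] [CommRing R] [Algebra k R] [Algebra A R] [IsScalarTower k A R] [AddCommGroup W]
    [Module R W] [Module A W] [IsScalarTower A R W] (ev : W →ₗ[A] A) (E : Derivation k R R) {d : ℕ}
    (v : Fin d → Derivation k A A) (α : Fin d → A) : Prop where
  free : Module.Free A R
  finite : Module.Finite A R
  rank : IsUnit ((Module.finrank A R : ℕ) : A)
  canonical_injective : ∀ φ : W, (∀ r : R, ev (r • φ) = 0) → φ = 0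
  canonical_surjective : ∀ l : R →ₗ[A] A, ∃ φ : W, ∀ r : R, ev (r • φ) = l r
  reflexive : Function.Bijective (Module.Dual.eval R W)
  mem : ∀ j, α j ∈ maximalIdeal A
  extends_euler : ∀ a, E (algebraMap A R a) = algebraMap A R (∑ j, α j * v j a)

/-- Let `S` be the localization of `k[x_1,…,x_n]` at a prime containing the variables of nonzero
weight (for instance at the origin) and `I ≠ S` generated by weighted homogeneous polynomials whose
degrees are nonzero in the field `k`. Suppose that `R = S/I` has a reflexive canonical module in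
the sense of `HasReflexiveCanonical`, where `E` is the Euler derivation `x_i ↦ w_i x_i`. Then `I`
is generated by a regular sequence

* if the normal module has projective dimension at most one, or
* if it has finite projective dimension and `Ext^i_R(I/I², R) = 0` for `1 ≤ i ≤ depth R - 3` (no
  condition if `depth R ≤ 3`). -/
theorem result (k : Type) [Field k] (n : ℕ) (w : Fin n → ℕ) (Q : Ideal (MvPolynomial (Fin n) k))
    [Q.IsPrime] (hQ : ∀ i, w i ≠ 0 → (X i : MvPolynomial (Fin n) k) ∈ Q)
    (m : ℕ) (f : Fin m → MvPolynomial (Fin n) k) (d : Fin m → ℕ)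
    (hf : ∀ l, (f l).IsWeightedHomogeneous w (d l)) (hd : ∀ l, (d l : k) ≠ 0)
    (S : Type) [CommRing S] [Algebra (MvPolynomial (Fin n) k) S] [IsLocalization.AtPrime S Q]
    [Algebra k S] [IsScalarTower k (MvPolynomial (Fin n) k) S]
    (I : Ideal S) (hIf : I = Ideal.span (Set.range fun l => algebraMap _ S (f l))) (hI : I ≠ ⊤)
    (A W : Type) [CommRing A] [IsLocalRing A] [Algebra k A] [Algebra A (S ⧸ I)]
    [IsScalarTower k A (S ⧸ I)] [AddCommGroup W] [Module (S ⧸ I) W] [Module A W]
    [IsScalarTower A (S ⧸ I) W] (ev : W →ₗ[A] A) (E : Derivation k (S ⧸ I) (S ⧸ I)) (e : ℕ)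
    (v : Fin e → Derivation k A A) (α : Fin e → A)
    (hEX : ∀ i, E (Ideal.Quotient.mk I (algebraMap (MvPolynomial (Fin n) k) S (X i))) =
      Ideal.Quotient.mk I (algebraMap (MvPolynomial (Fin n) k) S
        ((w i : MvPolynomial (Fin n) k) * X i)))
    (hcan : HasReflexiveCanonical k A (S ⧸ I) W ev E v α) :
    (HasProjectiveDimensionLT (ModuleCat.of (S ⧸ I) (Normal I)) 2 → RegularlyGenerated I) ∧
    (FinitePd (S ⧸ I) (Normal I) → ∀ t : ℕ, DepthLE (S ⧸ I) t →
      (∀ i, 1 ≤ i → i + 3 ≤ t → ExtVanishes I i) → RegularlyGenerated I) := by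
  have hS : IsLocalRing S := IsLocalization.AtPrime.isLocalRing S Q
  have hSN : IsNoetherianRing S := IsLocalization.isNoetherianRing Q.primeCompl S inferInstance
  have hpd : HasProjectiveDimensionLT (ModuleCat.of S I) (n + 1) := by
    rw [hIf]
    exact Pool.Agent.Y204.NM.pdLT_localization k Q S f
  obtain ⟨D, a, hD, ha, hE⟩ := Pool.Agent.Y204.NM.contracting_weighted k Q S w hQ f d hf hd
  rw [← hIf] at hE
  have hnt : Nontrivial (S ⧸ I) := Ideal.Quotient.nontrivial_iff.2 hI
  have hloc : IsLocalRing (S ⧸ I) :=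
    IsLocalRing.of_surjective' (Ideal.Quotient.mk I) Ideal.Quotient.mk_surjective
  have hfin : Module.Finite (S ⧸ I) I.Cotangent := by
    have h1 : Module.Finite S I.Cotangent :=
      Module.Finite.of_surjective I.toCotangent I.toCotangent_surjective
    exact Module.Finite.of_restrictScalars_finite S (S ⧸ I) I.Cotangent
  have hcan' : Pool.Agent.Y204.NM.CanonicalData k A (S ⧸ I) W ev E v α := by
    refine ⟨hcan.free, hcan.finite, hcan.rank, ⟨?_, ?_⟩, hcan.reflexive, hcan.mem,
      hcan.extends_euler⟩
    · intro φ ψ h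
      rw [← sub_eq_zero]
      apply hcan.canonical_injective
      intro r
      rw [smul_sub, map_sub, sub_eq_zero]
      exact congrArg (fun l => l r) h
    · intro l
      obtain ⟨φ, hφ⟩ := hcan.canonical_surjective l
      exact ⟨φ, LinearMap.ext hφ⟩
  have hno := Pool.Agent.Y204.NM.relMod_no_unit k Q S I D a hD hE hcan' (fun i => by
    rw [hEX, ha])
  have h1 : HasProjectiveDimensionLT (ModuleCat.of (S ⧸ I) (Normal I)) 2 → RegularlyGenerated I :=
    fun h => Pool.Agent.Y204.NM.regular_of_pd_one I hI hpd D a hE h hno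
  refine ⟨h1, ?_⟩
  rintro ⟨q, hq⟩ t ht hext
  exact h1 (Pool.Agent.Y204.NM.dual_pd_le_one_of_ext (S ⧸ I) t ht I.Cotangent hext hq)

end Pool.Agent.Results.MP_fa772a_ag.ReflexiveCanonical
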